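import Pool.Agent.X256.Med.Main

/-!
# The lower median eigenvalue of a graph of maximum degree at most 4 is at least `-√3`

Proof. Linear programming with integrality constraints. With `Lg x = 0.046 log|x^2 - 3| +
0.013 log|x + 2| + 0.010 log|x^3 + x^2 - 2x - 1|` there are a quartic `P1` and a cubic `P2` with
`P1, P2 >= Lg + 1` on `[-4, -√3)` and `P1, P2 >= Lg` on `[-√3, 4]`. The sum of `Lg` over the
eigenvalues is nonnegative, because resultants with integer polynomials are integers (eigenvalues
which are roots of the three polynomials are treated separately), and the sum of `min P1 P2` over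
the eigenvalues is at most the sum over the vertices `v` of the diagonal entry of `P1(A)` (if `v` is
in at most one triangle) or `P2(A)` (otherwise), which is at most `0.4999 n` by counting closed
walks of length at most 4.
-/

set_option autoImplicit false

namespace Pool.Agent.Results.MP_46d9e0_co.LowerMedianEigenvalue

open Polynomial

/-- Let `G` be a finite simple graph with `n` vertices, all degrees at most `4`, and let
`μ 0 ≥ μ 1 ≥ ... ≥ μ (n-1)` be the eigenvalues of its adjacency matrix, listed with multiplicity.
Then `μ k ≥ -√3` for all `k` with `k + 1 ≤ ⌈(n+1)/2⌉ = ⌊(n+2)/2⌋` (so both median eigenvalues are at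
least `-√3`). Moreover at most `0.4999 n` of the eigenvalues are smaller than `-√3`. -/
theorem result {V : Type*} [Fintype V] [DecidableEq V] (G : SimpleGraph V) [DecidableRel G.Adj]
    (hΔ : ∀ v, G.degree v ≤ 4) (μ : Fin (Fintype.card V) → ℝ) (hμ : Antitone μ)
    (hc : (G.adjMatrix ℝ).charpoly = ∏ k, (X - C (μ k))) :
    (∀ k : Fin (Fintype.card V), (k : ℕ) + 1 ≤ (Fintype.card V + 2) / 2 → -√3 ≤ μ k) ∧
    ((Finset.univ.filter fun k => μ k < -√3).card : ℝ) ≤ 4999 / 10000 * Fintype.card V := by
  obtain ⟨h1, h2⟩ := Pool.Agent.X256.Med.median_ge G hΔ μ hμ hc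
  exact ⟨h2, h1⟩

end Pool.Agent.Results.MP_46d9e0_co.LowerMedianEigenvalue
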